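import Pool.Agent.H91.N6D.Base

/-!
# Row DHPN
-/

set_option autoImplicit false
open MeasureTheory Pool.Agent.H28.N6 Filter Topology

namespace Pool.Agent.H91.N6D

section

variable {F : Type} [NontriviallyNormedField F] [IsUltrametricDist F] [ProperSpace F]
    [MeasurableSpace F] [BorelSpace F] (D : Dat F)

theorem isOpen_box (ι : Type) [Fintype ι] : IsOpen {z : ι → F | ∀ i, ‖z i‖ ≤ 1} := by
  have : {z : ι → F | ∀ i, ‖z i‖ ≤ 1} = ⋂ i, {z | ‖z i‖ ≤ 1} := by
    ext z; simp
  rw [this]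
  exact isOpen_iInter_of_finite fun i => isOpen_le (continuous_apply i) one_pos

theorem isOpen_V {ι : Type} [Fintype ι] (G : Matrix ι ι F) (a : F) (m : ℕ) :
    IsOpen {z : ι → F | (∀ i, ‖z i‖ ≤ 1) ∧ ‖qf G z + a‖ ≤ ‖D.p‖ ^ m} :=
  (isOpen_box ι).inter (isOpen_le ((continuous_qf G continuous_id).add continuous_const)
    (pow_pos (p_pos D) m))

theorem hv_nonneg (a : F) (m : ℕ) : 0 ≤ hv D a m := vol_nonneg D _

theorem hv_le_one (hBAL : T_BAL) (a : F) (m : ℕ) : hv D a m ≤ 1 := by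
  rw [← vol_box D hBAL (Fin 2)]
  exact vol_mono D hBAL (fun z hz => hz.1) (box_bdd _)

theorem continuous_hv (m : ℕ) : Continuous fun a : F => hv D a m := by
  rw [continuous_iff_continuousAt]
  intro a
  have hp : 0 < ‖D.p‖ ^ m := pow_pos (p_pos D) m
  refine (tendsto_const_nhds (x := hv D a m)).congr' ?_
  filter_upwards [Metric.closedBall_mem_nhds a hp] with b hb
  rw [mem_closedBall_iff_norm] at hb
  unfold hv
  congr 1
  ext z
  simp only [Set.mem_ofPred_eq]
  refine and_congr_right fun _ => ?_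
  have : z 0 * z 1 + b = (z 0 * z 1 + a) + (b - a) := by ring
  rw [this, norm_add_le_iff hb]

/-- Slicing. -/
theorem slice_two (hBAL : T_BAL) (hFU2 : T_FU2) (N : Matrix (Fin 2) (Fin 2) F) (m : ℕ) :
    vol D {z : Fin 4 → F | (∀ i, ‖z i‖ ≤ 1) ∧
        ‖z 0 * z 1 + qf N ![z 2, z 3]‖ ≤ ‖D.p‖ ^ m} =
      ∫ e in {e : Fin 2 → F | ∀ i, ‖e i‖ ≤ 1}, hv D (qf N e) m
        ∂(Measure.pi (fun _ : Fin 2 => D.μ)) := by
  have hp := p_pos D
  set A : Set (Fin (2 + 2) → F) := {z : Fin 4 → F | (∀ i, ‖z i‖ ≤ 1) ∧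
        ‖z 0 * z 1 + qf N ![z 2, z 3]‖ ≤ ‖D.p‖ ^ m} with hA
  have hopen : IsOpen A := by
    have hc : Continuous fun z : Fin 4 → F => ![z 2, z 3] := by
      refine continuous_pi fun i => ?_
      fin_cases i
      · exact continuous_apply (2 : Fin 4)
      · exact continuous_apply (3 : Fin 4)
    have h2 : IsOpen {z : Fin 4 → F | ‖z 0 * z 1 + qf N ![z 2, z 3]‖ ≤ ‖D.p‖ ^ m} :=
      isOpen_le (((continuous_apply 0).mul (continuous_apply 1)).add
        (continuous_qf N hc)) (pow_pos hp m)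
    exact (isOpen_box (Fin 4)).inter h2
  have hbd : Bornology.IsBounded A := (box_bdd (Fin 4)).subset fun z hz => hz.1
  have hs := D.haar
  have hmO : MeasurableSet {e : Fin 2 → F | ∀ i, ‖e i‖ ≤ 1} := (isOpen_box (Fin 2)).measurableSet
  rw [hFU2 F D 2 2 A hopen hbd, ← integral_indicator hmO]
  refine integral_congr_ae (ae_of_all _ fun e => ?_)
  simp only []
  by_cases he : ∀ i, ‖e i‖ ≤ 1
  · rw [Set.indicator_of_mem (show e ∈ {e : Fin 2 → F | ∀ i, ‖e i‖ ≤ 1} from he)]
    unfold hv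
    congr 1
    ext y
    show (Fin.append y e ∈ A) ↔ _
    have a0 : (Fin.append y e : Fin 4 → F) 0 = y 0 := rfl
    have a1 : (Fin.append y e : Fin 4 → F) 1 = y 1 := rfl
    have a2 : (Fin.append y e : Fin 4 → F) 2 = e 0 := rfl
    have a3 : (Fin.append y e : Fin 4 → F) 3 = e 1 := rfl
    have e1 : ![(Fin.append y e : Fin 4 → F) 2, (Fin.append y e : Fin 4 → F) 3] = e := by
      funext i
      fin_cases i <;> rfl
    constructor
    · rintro ⟨h1, h2⟩
      refine ⟨fun i => ?_, ?_⟩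
      · fin_cases i
        · exact h1 0
        · exact h1 1
      · rw [e1] at h2
        exact h2
    · rintro ⟨h1, h2⟩
      refine ⟨fun i => ?_, ?_⟩
      · fin_cases i
        · exact h1 0
        · exact h1 1
        · exact he 0
        · exact he 1
      · rw [e1]
        exact h2
  · rw [Set.indicator_of_notMem (show e ∉ {e : Fin 2 → F | ∀ i, ‖e i‖ ≤ 1} from he)]
    have : {y : Fin 2 → F | Fin.append y e ∈ A} = ∅ := by
      ext y
      refine ⟨fun hy => he fun i => ?_, fun hy => absurd hy (Set.notMem_empty _)⟩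
      have := hy.1 (Fin.natAdd 2 i)
      rwa [Fin.append_right] at this
    rw [this]
    simp [vol]

theorem vol_box_ne_top (hBAL : T_BAL) (n : ℕ) :
    (Measure.pi (fun _ : Fin n => D.μ)) {e : Fin n → F | ∀ i, ‖e i‖ ≤ 1} ≠ ⊤ := by
  intro h
  have := vol_box D hBAL (Fin n)
  unfold vol at this
  rw [h] at this
  simp at this

end

theorem pf_HPN (hFU2 : T_FU2) (hHTB : T_HTB) (hANI : T_ANI) (hNRM : T_NRM) (hBAL : T_BAL) :
    T_HPN := by
  intro F _ _ _ _ _ D N hN
  obtain ⟨⟨m0, hm0⟩, -⟩ := hANI F D 2 N hN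
  have hp := p_pos D
  have hq := q_pos D
  have hs := D.haar
  refine ⟨m0, fun m hm => ?_⟩
  set ν := Measure.pi (fun _ : Fin 2 => D.μ) with hν
  set O : Set (Fin 2 → F) := {e : Fin 2 → F | ∀ i, ‖e i‖ ≤ 1} with hO
  have hmO : MeasurableSet O := (isOpen_box (Fin 2)).measurableSet
  have hfin : ν O ≠ ⊤ := vol_box_ne_top D hBAL 2
  have hint : ∀ j, IntegrableOn (fun e => hv D (qf N e) j) O ν := by
    intro j
    have hc : Continuous fun e : Fin 2 → F => hv D (qf N e) j :=
      (continuous_hv D j).comp (continuous_qf N continuous_id)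
    refine Measure.integrableOn_of_bounded hfin hc.aestronglyMeasurable (M := 1)
      (ae_of_all _ fun s => ?_)
    rw [Real.norm_of_nonneg (hv_nonneg D _ _)]
    exact hv_le_one D hBAL _ _
  have hTT : TT D.q (fun m => vol D {z : Fin 4 → F | (∀ i, ‖z i‖ ≤ 1) ∧
      ‖z 0 * z 1 + qf N ![z 2, z 3]‖ ≤ ‖D.p‖ ^ m}) m =
      ∫ e in O, TT D.q (hv D (qf N e)) m ∂ν := by
    unfold TT
    beta_reduce
    rw [slice_two D hBAL hFU2, slice_two D hBAL hFU2, slice_two D hBAL hFU2]
    have i0 := hint m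
    have i1 := (hint (m + 1)).const_mul ((D.q : ℝ) ^ 2 - D.q)
    have i2 := (hint (m + 2)).const_mul ((D.q : ℝ) ^ 3)
    have i01 : IntegrableOn (fun e => hv D (qf N e) m +
        ((D.q : ℝ) ^ 2 - D.q) * hv D (qf N e) (m + 1)) O ν := i0.add i1
    rw [integral_sub i01 i2, integral_add i0 i1, integral_const_mul, integral_const_mul]
  rw [hTT]
  -- the sets
  set E : ℕ → Set (Fin 2 → F) := fun j => {e | (∀ i, ‖e i‖ ≤ 1) ∧ ‖qf N e + 0‖ ≤ ‖D.p‖ ^ j}
    with hE
  have hEm : ∀ j, MeasurableSet (E j) := fun j => (isOpen_V D N 0 j).measurableSet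
  have hEO : ∀ j, E j ⊆ O := fun j e he => he.1
  have hEfin : ∀ j, ν (E j) ≠ ⊤ := fun j => ne_top_of_le_ne_top hfin (measure_mono (hEO j))
  have hV : ∀ j, ν.real (E j) = V D N 0 j := fun j => rfl
  set c1 : ℝ := ((D.q : ℝ) ^ (m + 1))⁻¹ with hc1
  have hval : ∀ e ∈ O, TT D.q (hv D (qf N e)) m =
      (E m).indicator (fun _ => c1) e - (E (m + 2)).indicator (fun _ => (D.q : ℝ) ^ 2 * c1) e := by
    intro e he
    obtain ⟨t1, t2, t3⟩ := hHTB F D (qf N e) m
    have hm1 : ∀ j, e ∈ E j ↔ ‖qf N e‖ ≤ ‖D.p‖ ^ j := by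
      intro j
      constructor
      · rintro ⟨-, h⟩
        rwa [add_zero] at h
      · intro h
        exact ⟨he, by rwa [add_zero]⟩
    by_cases h1 : ‖qf N e‖ ≤ ‖D.p‖ ^ m
    · rw [Set.indicator_of_mem ((hm1 m).2 h1)]
      by_cases h2 : ‖D.p‖ ^ (m + 1) ≤ ‖qf N e‖
      · have h3 : e ∉ E (m + 2) := by
          rw [hm1]
          intro h4
          have h5 : ‖D.p‖ ^ (m + 2) < ‖D.p‖ ^ (m + 1) := by
            rw [pow_succ ‖D.p‖ (m + 1)]
            exact mul_lt_of_lt_one_right (pow_pos hp _) D.p1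
          linarith
        rw [Set.indicator_of_notMem h3, t2 h1 h2, sub_zero]
      · have h3 : ‖qf N e‖ ≤ ‖D.p‖ ^ (m + 2) := by
          rw [not_le] at h2
          by_cases h0 : qf N e = 0
          · rw [h0, norm_zero]; positivity
          · obtain ⟨k, hk⟩ := hNRM F D _ h0
            rw [hk] at h2 ⊢
            rw [← zpow_natCast] at h2 ⊢
            have h4 : ((m + 1 : ℕ) : ℤ) < k := by
              by_contra hcon
              push Not at hcon
              exact absurd h2 (not_lt_of_ge (zpow_le_zpow_right_of_le_one₀ hp D.p1.le hcon))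
            exact zpow_le_zpow_right_of_le_one₀ hp D.p1.le (by push_cast at h4 ⊢; omega)
        rw [Set.indicator_of_mem ((hm1 (m + 2)).2 h3), t3 h3]
        ring
    · have h3 : e ∉ E m := fun h => h1 ((hm1 m).1 h)
      have h4 : e ∉ E (m + 2) := fun h => h1 (((hm1 _).1 h).trans
        (pow_le_pow_of_le_one hp.le D.p1.le (by omega)))
      rw [Set.indicator_of_notMem h3, Set.indicator_of_notMem h4, t1 (not_le.1 h1), sub_zero]
  have hic : ∀ (j : ℕ) (c : ℝ), IntegrableOn ((E j).indicator fun _ => c) O ν := by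
    intro j c
    refine (IntegrableOn.integrable_indicator ?_ (hEm j)).integrableOn
    exact integrableOn_const (hEfin j)
  have hii : ∀ (j : ℕ) (c : ℝ), ∫ e in O, (E j).indicator (fun _ => c) e ∂ν = V D N 0 j * c := by
    intro j c
    rw [integral_indicator (hEm j), Measure.restrict_restrict (hEm j),
      Set.inter_eq_left.2 (hEO j), setIntegral_const, hV, smul_eq_mul]
  rw [setIntegral_congr_fun hmO hval, integral_sub (hic m c1) (hic (m + 2) _), hii, hii, hm0 m hm]
  field_simp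
  ring

end Pool.Agent.H91.N6D
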