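import Pool.Agent.H91.N6D.HPN

/-!
# Row DISQ
-/

set_option autoImplicit false
open MeasureTheory Pool.Agent.H28.N6 Filter Topology

namespace Pool.Agent.H91.N6D

section

variable {F : Type} [NontriviallyNormedField F] [IsUltrametricDist F] [ProperSpace F]
    [MeasurableSpace F] [BorelSpace F] (D : Dat F)

theorem TT_add (q : ℕ) (v w : ℕ → ℝ) (m : ℕ) :
    TT q (fun m => v m + w m) m = TT q v m + TT q w m := by
  unfold TT; ring

/-- `T` kills `q ^ (-m)`. -/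
theorem TT_kill {q : ℕ} (hq : (0 : ℝ) < q) {v : ℕ → ℝ} {α : ℝ} {m0 : ℕ}
    (h : ∀ m, m0 ≤ m → v m = α * ((q : ℝ) ^ m)⁻¹) {m : ℕ} (hm : m0 ≤ m) : TT q v m = 0 := by
  unfold TT
  rw [h m hm, h (m + 1) (by omega), h (m + 2) (by omega)]
  have h1 : (q : ℝ) ≠ 0 := hq.ne'
  rw [pow_add, pow_add]
  field_simp
  ring

theorem small_eq_closedBall (n : ℕ) {r : ℝ} (hr : 0 ≤ r) :
    {z : Fin n → F | ∀ i, ‖z i‖ ≤ r} = Metric.closedBall 0 r := by
  ext z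
  rw [mem_closedBall_zero_iff]
  exact (pi_norm_le_iff_of_nonneg hr).symm

theorem isOpen_small (n : ℕ) {r : ℝ} (hr : 0 < r) : IsOpen {z : Fin n → F | ∀ i, ‖z i‖ ≤ r} := by
  have : {z : Fin n → F | ∀ i, ‖z i‖ ≤ r} = ⋂ i, {z | ‖z i‖ ≤ r} := by
    ext z; simp
  rw [this]
  exact isOpen_iInter_of_finite fun i => isOpen_le (continuous_apply i) hr

theorem isCompact_small (n : ℕ) {r : ℝ} (hr : 0 ≤ r) :
    IsCompact {z : Fin n → F | ∀ i, ‖z i‖ ≤ r} := by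
  rw [small_eq_closedBall n hr]
  exact isCompact_closedBall 0 r

/-- Away from zero nothing matters. -/
theorem TT_local (hSUB : T_SUB) (hBAL : T_BAL) (h2 : (2 : F) ≠ 0) {n : ℕ}
    (G : Matrix (Fin n) (Fin n) F) (hG : G.transpose = G) (hdet : G.det ≠ 0)
    (E : Set (Fin n → F)) (hEc : IsCompact E) (hEo : IsOpen E) (j : ℕ)
    (hj : {z : Fin n → F | ∀ i, ‖z i‖ ≤ ‖D.p‖ ^ j} ⊆ E) :
    ∃ m0 : ℕ, ∀ m, m0 ≤ m →
      TT D.q (fun m => vol D {z | z ∈ E ∧ ‖qf G z‖ ≤ ‖D.p‖ ^ m}) m =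
        TT D.q (fun m => vol D {z : Fin n → F | (∀ i, ‖z i‖ ≤ ‖D.p‖ ^ j) ∧
          ‖qf G z‖ ≤ ‖D.p‖ ^ m}) m := by
  have hp := p_pos D
  have hq := q_pos D
  have hpj : 0 < ‖D.p‖ ^ j := pow_pos hp j
  set S : Set (Fin n → F) := {z : Fin n → F | ∀ i, ‖z i‖ ≤ ‖D.p‖ ^ j} with hS
  have hSo : IsOpen S := isOpen_small n hpj
  have hSc : IsCompact S := isCompact_small n hpj.le
  have hKc : IsCompact (E \ S) := hEc.diff hSo
  have hKo : IsOpen (E \ S) := hEo.sdiff hSc.isClosed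
  obtain ⟨m0, hm0⟩ := hSUB F D h2 n G (E \ S) {0} hG hKc hKo isCompact_singleton (by
    rintro z ⟨-, hz⟩ a - - h0
    refine hz fun i => ?_
    have hz0 : z = 0 := by
      have := mulVec_inj G hdet (a₁ := z) (a₂ := 0) (by simpa using h0)
      exact this
    rw [hz0]
    simpa using hpj.le)
  obtain ⟨α, hα⟩ := hm0 0 rfl
  refine ⟨m0, fun m hm => ?_⟩
  have hlev : ∀ m : ℕ, IsOpen {z : Fin n → F | ‖qf G z‖ ≤ ‖D.p‖ ^ m} := fun m =>
    isOpen_le (continuous_qf G continuous_id) (pow_pos hp m)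
  have hsplit : ∀ m : ℕ, vol D {z | z ∈ E ∧ ‖qf G z‖ ≤ ‖D.p‖ ^ m} =
      vol D {z | z ∈ S ∧ ‖qf G z‖ ≤ ‖D.p‖ ^ m} +
        vol D {z | z ∈ E \ S ∧ ‖qf G z + 0‖ ≤ ‖D.p‖ ^ m} := by
    intro m
    have o1 : IsOpen {z | z ∈ S ∧ ‖qf G z‖ ≤ ‖D.p‖ ^ m} := hSo.inter (hlev m)
    have o2 : IsOpen {z | z ∈ E \ S ∧ ‖qf G z + 0‖ ≤ ‖D.p‖ ^ m} :=
      hKo.inter (isOpen_le ((continuous_qf G continuous_id).add continuous_const) (pow_pos hp m))
    rw [← (hBAL F D (Fin n)).2.2.2.2.1 _ _ o1 o2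
      (hSc.isBounded.subset fun z hz => hz.1) (hKc.isBounded.subset fun z hz => hz.1)
      (Set.disjoint_left.2 fun z h1 h2 => h2.1.2 h1.1)]
    congr 1
    ext z
    constructor
    · rintro ⟨h1, h3⟩
      by_cases hz : z ∈ S
      · exact Or.inl ⟨hz, h3⟩
      · exact Or.inr ⟨⟨h1, hz⟩, by rwa [add_zero]⟩
    · rintro (⟨h1, h3⟩ | ⟨h1, h3⟩)
      · exact ⟨hj h1, h3⟩
      · exact ⟨h1.1, by rwa [add_zero] at h3⟩
  have e1 : (fun m => vol D {z | z ∈ E ∧ ‖qf G z‖ ≤ ‖D.p‖ ^ m}) = fun m =>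
      vol D {z | z ∈ S ∧ ‖qf G z‖ ≤ ‖D.p‖ ^ m} +
        vol D {z | z ∈ E \ S ∧ ‖qf G z + 0‖ ≤ ‖D.p‖ ^ m} := funext hsplit
  rw [e1, TT_add, TT_kill hq (α := α) (m0 := m0)
    (v := fun m => vol D {z | z ∈ E \ S ∧ ‖qf G z + 0‖ ≤ ‖D.p‖ ^ m}) (fun m hm => hα m hm) hm,
    add_zero]
  rfl

end

theorem pf_ISQ (hWIT : T_WIT) (hHPN : T_HPN) (hSUB : T_SUB) (hGLO : T_GLO) (hBAL : T_BAL) :
    T_ISQ := by
  intro F _ _ _ _ _ D h2 G hG hdet hani hiso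
  obtain ⟨M, N, hM, hN, hNs, hg⟩ := hWIT F h2 G hG hdet hani hiso
  obtain ⟨m1, hm1⟩ := hHPN F D N hN
  obtain ⟨c, hc, -, hvol⟩ := hGLO F D (Fin 4) M hM
  have hp := p_pos D
  have hq := q_pos D
  set G1 : Matrix (Fin 4) (Fin 4) F := M.transpose * G * M with hG1
  have hG1s : G1.transpose = G1 := symm_congr M G hG
  have hG1d : G1.det ≠ 0 := by
    rw [hG1, Matrix.det_mul, Matrix.det_mul, Matrix.det_transpose]
    exact mul_ne_zero (mul_ne_zero hM hdet) hM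
  have hq1 : ∀ z, qf G1 z = z 0 * z 1 + qf N ![z 2, z 3] := fun z => by
    rw [hG1, qf_congr, hg]
  have hq2 : ∀ z, qf G (M.mulVec z) = qf G1 z := fun z => by rw [hg, hq1]
  -- the lattice
  set L : Set (Fin 4 → F) := {z | ∀ i, ‖M.mulVec z i‖ ≤ 1} with hL
  have hcM : Continuous fun z : Fin 4 → F => M.mulVec z :=
    Continuous.matrix_mulVec continuous_const continuous_id
  have hLo : IsOpen L := (isOpen_small 4 one_pos).preimage hcM
  have hLc : IsCompact L := by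
    have hci : Continuous fun z : Fin 4 → F => M⁻¹.mulVec z :=
      Continuous.matrix_mulVec continuous_const continuous_id
    have e : L = (fun z => M⁻¹.mulVec z) '' {z : Fin 4 → F | ∀ i, ‖z i‖ ≤ 1} := by
      ext z
      constructor
      · intro hz
        refine ⟨M.mulVec z, hz, ?_⟩
        show M⁻¹.mulVec (M.mulVec z) = z
        rw [Matrix.mulVec_mulVec, Matrix.nonsing_inv_mul _ (isUnit_iff_ne_zero.2 hM),
          Matrix.one_mulVec]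
      · rintro ⟨w, hw, rfl⟩
        intro i
        show ‖M.mulVec (M⁻¹.mulVec w) i‖ ≤ 1
        rw [Matrix.mulVec_mulVec, Matrix.mul_nonsing_inv _ (isUnit_iff_ne_zero.2 hM),
          Matrix.one_mulVec]
        exact hw i
    rw [e]
    exact (isCompact_small 4 zero_le_one).image hci
  -- a small cube
  obtain ⟨j, hj⟩ : ∃ j : ℕ, {z : Fin 4 → F | ∀ i, ‖z i‖ ≤ ‖D.p‖ ^ j} ⊆ L := by
    set C : ℝ := ∑ i, ∑ k, ‖M i k‖ with hC
    have hC0 : 0 ≤ C := Finset.sum_nonneg fun i _ => Finset.sum_nonneg fun k _ => norm_nonneg _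
    have hB : ∀ i k, ‖M i k‖ ≤ C := fun i k =>
      (Finset.single_le_sum (f := fun k => ‖M i k‖) (fun k _ => norm_nonneg _)
        (Finset.mem_univ k)).trans
      (Finset.single_le_sum (f := fun i => ∑ k, ‖M i k‖)
        (fun i _ => Finset.sum_nonneg fun k _ => norm_nonneg _) (Finset.mem_univ i))
    obtain ⟨j, hj⟩ := exists_pow_lt_of_lt_one (show 0 < 1 / (C + 1) by positivity) D.p1
    refine ⟨j, fun z hz i => ?_⟩
    show ‖∑ k, M i k * z k‖ ≤ 1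
    refine IsUltrametricDist.norm_sum_le_of_forall_le_of_nonneg zero_le_one fun k _ => ?_
    rw [norm_mul]
    calc ‖M i k‖ * ‖z k‖ ≤ (C + 1) * (1 / (C + 1)) :=
          mul_le_mul ((hB i k).trans (by linarith)) ((hz k).trans hj.le) (norm_nonneg _)
            (by linarith)
      _ = 1 := by field_simp
  have hj' : {z : Fin 4 → F | ∀ i, ‖z i‖ ≤ ‖D.p‖ ^ j} ⊆ {z : Fin 4 → F | ∀ i, ‖z i‖ ≤ 1} :=
    fun z hz i => (hz i).trans (pow_le_one₀ hp.le D.p1.le)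
  obtain ⟨m2, hm2⟩ := TT_local D hSUB hBAL h2 G1 hG1s hG1d L hLc hLo j hj
  obtain ⟨m3, hm3⟩ := TT_local D hSUB hBAL h2 G1 hG1s hG1d {z : Fin 4 → F | ∀ i, ‖z i‖ ≤ 1}
    (isCompact_small 4 zero_le_one) (isOpen_small 4 one_pos) j hj'
  refine ⟨m1 + m2 + m3, fun m hm => ?_⟩
  have e1 : TT D.q (fun m => vol D {z | z ∈ L ∧ ‖qf G1 z‖ ≤ ‖D.p‖ ^ m}) m = 0 := by
    rw [hm2 m (by omega), ← hm3 m (by omega)]
    have := hm1 m (by omega)
    simp only [← hq1] at this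
    exact this
  have e2 : ∀ m, vol D {z | z ∈ L ∧ ‖qf G1 z‖ ≤ ‖D.p‖ ^ m} = c * V D G 0 m := by
    intro m
    unfold V
    rw [← hvol]
    congr 1
    ext z
    constructor
    · rintro ⟨h1, h3⟩
      exact ⟨h1, by rw [hq2, add_zero]; exact h3⟩
    · rintro ⟨h1, h3⟩
      refine ⟨h1, ?_⟩
      rw [hq2, add_zero] at h3
      exact h3
  have e3 : TT D.q (fun m => vol D {z | z ∈ L ∧ ‖qf G1 z‖ ≤ ‖D.p‖ ^ m}) m =
      c * TT D.q (V D G 0) m := by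
    unfold TT
    beta_reduce
    rw [e2, e2, e2]
    ring
  rw [e3] at e1
  exact (mul_eq_zero.1 e1).resolve_left hc.ne'

end Pool.Agent.H91.N6D
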