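import Pool.Agent.H91.N6D.Base

/-!
# Row DMEA
-/

set_option autoImplicit false
open MeasureTheory Pool.Agent.H28.N6 Filter Topology

namespace Pool.Agent.H91.N6D

theorem pf_MEA : T_MEA := by
  intro F _ _ _ _ _ D A B m
  have hV : ∀ j : ℕ, Continuous fun t : F => V D (A + t • B) 0 j := by
    intro j
    rw [continuous_iff_continuousAt]
    intro t
    have hp : 0 < ‖D.p‖ ^ j := pow_pos (p_pos D) j
    set M : ℝ := ∑ i, ∑ k, ‖B i k‖ with hM
    have hM0 : 0 ≤ M := Finset.sum_nonneg fun i _ => Finset.sum_nonneg fun k _ => norm_nonneg _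
    have hB : ∀ i k, ‖B i k‖ ≤ M := fun i k =>
      (Finset.single_le_sum (f := fun k => ‖B i k‖) (fun k _ => norm_nonneg _)
        (Finset.mem_univ k)).trans
      (Finset.single_le_sum (f := fun i => ∑ k, ‖B i k‖)
        (fun i _ => Finset.sum_nonneg fun k _ => norm_nonneg _) (Finset.mem_univ i))
    have hd : 0 < ‖D.p‖ ^ j / (M + 1) := div_pos hp (by linarith)
    refine (tendsto_const_nhds (x := V D (A + t • B) 0 j)).congr' ?_
    filter_upwards [Metric.closedBall_mem_nhds t hd] with s hs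
    rw [mem_closedBall_iff_norm] at hs
    unfold V
    congr 1
    ext z
    simp only [Set.mem_setOf_eq]
    refine and_congr_right fun hz => ?_
    have e : qf (A + s • B) z + 0 = (qf (A + t • B) z + 0) + qf ((s - t) • B) z := by
      rw [qf_pencil, qf_pencil, qf_smul]
      ring
    have hle : ‖qf ((s - t) • B) z‖ ≤ ‖D.p‖ ^ j := by
      refine norm_qf_le _ z hp.le (fun i k => ?_) hz
      rw [Matrix.smul_apply, smul_eq_mul, norm_mul]
      calc ‖s - t‖ * ‖B i k‖ ≤ (‖D.p‖ ^ j / (M + 1)) * (M + 1) :=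
            mul_le_mul hs ((hB i k).trans (by linarith)) (norm_nonneg _) hd.le
        _ = ‖D.p‖ ^ j := div_mul_cancel₀ _ (by linarith : M + 1 ≠ 0)
    rw [e, norm_add_le_iff hle]
  refine ⟨hV m, ?_⟩
  unfold TT
  exact ((hV m).add (continuous_const.mul (hV (m + 1)))).sub
    (continuous_const.mul (hV (m + 2)))

end Pool.Agent.H91.N6D
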