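import Pool.Agent.H91.N6D.Base

/-!
# Row DNEA
-/

set_option autoImplicit false
open MeasureTheory Pool.Agent.H28.N6 Filter Topology

namespace Pool.Agent.H91.N6D

section

variable {F : Type} [NontriviallyNormedField F] [IsUltrametricDist F] [ProperSpace F]
    [MeasurableSpace F] [BorelSpace F] (D : Dat F)

theorem finite_O : D.μ {x : F | ‖x‖ ≤ 1} ≠ ⊤ := by rw [D.one]; exact ENNReal.one_ne_top

/-- The set of the small `s`. -/
theorem meas_small (hBAL : T_BAL) (hNRM : T_NRM) (r m : ℕ) :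
    (D.μ {s : F | ‖s‖ ≤ 1 ∧ ‖D.p‖ ^ r * ‖s‖ ^ 2 ≤ ‖D.p‖ ^ m}).toReal ≤
      Real.sqrt D.q ^ r * (Real.sqrt D.q ^ m)⁻¹ := by
  have hp := p_pos D
  have hq := q_pos D
  have hq1 := one_lt_q D
  have hsq : 1 ≤ Real.sqrt D.q := Real.one_le_sqrt.2 hq1.le
  have hsq0 : 0 < Real.sqrt D.q := by linarith
  have hsub : {s : F | ‖s‖ ≤ 1 ∧ ‖D.p‖ ^ r * ‖s‖ ^ 2 ≤ ‖D.p‖ ^ m} ⊆ {x : F | ‖x‖ ≤ 1} :=
    fun s hs => hs.1
  rcases le_or_gt m r with hmr | hmr
  · have h1 : (D.μ {s : F | ‖s‖ ≤ 1 ∧ ‖D.p‖ ^ r * ‖s‖ ^ 2 ≤ ‖D.p‖ ^ m}).toReal ≤ 1 := by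
      have := ENNReal.toReal_mono (finite_O D) (measure_mono (μ := D.μ) hsub)
      rwa [D.one, ENNReal.toReal_one] at this
    refine h1.trans ?_
    rw [← div_eq_mul_inv, one_le_div (pow_pos hsq0 _)]
    exact pow_le_pow_right₀ hsq hmr
  · obtain ⟨d, rfl⟩ : ∃ d, m = r + d := ⟨m - r, by omega⟩
    have hsub2 : {s : F | ‖s‖ ≤ 1 ∧ ‖D.p‖ ^ r * ‖s‖ ^ 2 ≤ ‖D.p‖ ^ (r + d)} ⊆
        {x : F | ‖x‖ ≤ ‖D.p‖ ^ ((d + 1) / 2)} := by
      rintro s ⟨-, hs⟩
      rw [pow_add] at hs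
      have h2 : ‖s‖ ^ 2 ≤ ‖D.p‖ ^ d := le_of_mul_le_mul_left hs (pow_pos hp r)
      by_cases hs0 : s = 0
      · subst hs0
        show ‖(0 : F)‖ ≤ _
        rw [norm_zero]; positivity
      · obtain ⟨k, hk⟩ := hNRM F D s hs0
        show ‖s‖ ≤ _
        rw [hk] at h2 ⊢
        have h3 : ‖D.p‖ ^ (k * 2) ≤ ‖D.p‖ ^ (d : ℤ) := by
          rw [zpow_mul, zpow_natCast]
          exact_mod_cast h2
        have h4 : (d : ℤ) ≤ k * 2 := by
          by_contra hcon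
          push Not at hcon
          exact absurd h3 (not_le_of_gt (zpow_lt_zpow_right_of_lt_one₀ hp D.p1 hcon))
        rw [← zpow_natCast]
        exact zpow_le_zpow_right_of_le_one₀ hp D.p1.le (by push_cast; omega)
    have hfin : D.μ {x : F | ‖x‖ ≤ ‖D.p‖ ^ ((d + 1) / 2)} ≠ ⊤ := by
      refine ne_top_of_le_ne_top (finite_O D) (measure_mono fun x hx => ?_)
      exact le_trans hx (pow_le_one₀ hp.le D.p1.le)
    have h1 := ENNReal.toReal_mono hfin (measure_mono (μ := D.μ) hsub2)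
    rw [ball_one D hBAL] at h1
    refine h1.trans ?_
    rw [pow_add, mul_inv, ← mul_assoc, mul_inv_cancel₀ (pow_pos hsq0 r).ne', one_mul]
    refine inv_anti₀ (pow_pos hsq0 d) ?_
    calc Real.sqrt D.q ^ d ≤ Real.sqrt D.q ^ (2 * ((d + 1) / 2)) :=
          pow_le_pow_right₀ hsq (by omega)
      _ = (D.q : ℝ) ^ ((d + 1) / 2) := by rw [pow_mul, Real.sq_sqrt hq.le]

/-- Slicing the first variable. -/
theorem slice_first (hBAL : T_BAL) (hFUB : T_FUB) (h : Matrix (Fin 3) (Fin 3) F) (ε : F)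
    (m : ℕ) : vol D {z : Fin 4 → F | (∀ i, ‖z i‖ ≤ 1) ∧
        ‖ε * z 0 ^ 2 + qf h ![z 1, z 2, z 3]‖ ≤ ‖D.p‖ ^ m} =
      ∫ s in {s : F | ‖s‖ ≤ 1}, V D h (ε * s ^ 2) m ∂D.μ := by
  have hp := p_pos D
  set A : Set (Fin 4 → F) := {z : Fin 4 → F | (∀ i, ‖z i‖ ≤ 1) ∧
        ‖ε * z 0 ^ 2 + qf h ![z 1, z 2, z 3]‖ ≤ ‖D.p‖ ^ m} with hA
  have hopen : IsOpen A := by
    have h1 : IsOpen {z : Fin 4 → F | ∀ i, ‖z i‖ ≤ 1} := by
      have : {z : Fin 4 → F | ∀ i, ‖z i‖ ≤ 1} = ⋂ i, {z | ‖z i‖ ≤ 1} := by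
        ext z; simp
      rw [this]
      exact isOpen_iInter_of_finite fun i => isOpen_le (continuous_apply i) one_pos
    have hc : Continuous fun z : Fin 4 → F => ![z 1, z 2, z 3] := by
      refine continuous_pi fun i => ?_
      fin_cases i
      · exact continuous_apply (1 : Fin 4)
      · exact continuous_apply (2 : Fin 4)
      · exact continuous_apply (3 : Fin 4)
    have h2 : IsOpen {z : Fin 4 → F | ‖ε * z 0 ^ 2 + qf h ![z 1, z 2, z 3]‖ ≤ ‖D.p‖ ^ m} :=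
      isOpen_le ((continuous_const.mul ((continuous_apply 0).pow 2)).add
        (continuous_qf h hc)) (pow_pos hp m)
    exact h1.inter h2
  have hbd : Bornology.IsBounded A := (box_bdd (Fin 4)).subset fun z hz => hz.1
  rw [(hFUB F D 3 A hopen hbd 0).1]
  have hm : MeasurableSet {s : F | ‖s‖ ≤ 1} :=
    (isOpen_le continuous_id one_pos).measurableSet
  rw [← integral_indicator hm]
  refine integral_congr_ae (ae_of_all _ fun s => ?_)
  simp only []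
  by_cases hs : ‖s‖ ≤ 1
  · rw [Set.indicator_of_mem (show s ∈ {s : F | ‖s‖ ≤ 1} from hs)]
    unfold V
    congr 1
    ext y
    show (Fin.insertNth 0 s y ∈ A) ↔ _
    have e0 : (Fin.insertNth (α := fun _ => F) 0 s y) = Fin.cons s y := by
      rw [Fin.insertNth_zero']
    rw [e0]
    have e1 : ![(Fin.cons s y : Fin 4 → F) 1, (Fin.cons s y : Fin 4 → F) 2,
        (Fin.cons s y : Fin 4 → F) 3] = y := by
      funext i
      fin_cases i <;> rfl
    constructor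
    · rintro ⟨h1, h2⟩
      refine ⟨fun i => ?_, ?_⟩
      · have := h1 i.succ
        rwa [Fin.cons_succ] at this
      · rw [e1] at h2
        rw [add_comm]
        exact h2
    · rintro ⟨h1, h2⟩
      refine ⟨fun i => ?_, ?_⟩
      · refine Fin.cases ?_ (fun i => ?_) i
        · exact hs
        · rw [Fin.cons_succ]; exact h1 i
      · rw [e1]
        rw [add_comm] at h2
        exact h2
  · rw [Set.indicator_of_notMem (show s ∉ {s : F | ‖s‖ ≤ 1} from hs)]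
    have : {y : Fin 3 → F | Fin.insertNth 0 s y ∈ A} = ∅ := by
      ext y
      refine ⟨fun hy => hs ?_, fun hy => absurd hy (Set.notMem_empty _)⟩
      have := hy.1 0
      simpa using this
    rw [this]
    simp [vol]

theorem integrableOn_V (hBAL : T_BAL) {n : ℕ} (h : Matrix (Fin n) (Fin n) F) (ε : F) (m : ℕ) :
    IntegrableOn (fun s => V D h (ε * s ^ 2) m) {s : F | ‖s‖ ≤ 1} D.μ := by
  have hc : Continuous fun s : F => V D h (ε * s ^ 2) m :=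
    (continuous_V_a D h m).comp (continuous_const.mul (continuous_id.pow 2))
  have hs := D.haar
  refine Measure.integrableOn_of_bounded (finite_O D) hc.aestronglyMeasurable (M := 1)
    (ae_of_all _ fun s => ?_)
  rw [Real.norm_of_nonneg (V_nonneg D _ _ _)]
  exact V_le_one D hBAL _ _ _

end

theorem pf_NEA (hTER : T_TER) (hFUB : T_FUB) (hBAL : T_BAL) (hNRM : T_NRM) : T_NEA := by
  intro F _ _ _ _ _ D h2 h hh hani
  obtain ⟨l, C, hC⟩ := hTER F D h2 h hh hani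
  have hp := p_pos D
  have hq := q_pos D
  have hsq0 : 0 < Real.sqrt D.q := Real.sqrt_pos.2 hq
  have hC0 : 0 ≤ C := by
    have := (hC 0 0 (by simp)).2 (by simp)
    have h3 := (abs_nonneg _).trans this
    simpa using h3
  refine ⟨C * Real.sqrt D.q ^ l, fun ε k m hε => ?_⟩
  have hmO : MeasurableSet {s : F | ‖s‖ ≤ 1} :=
    (isOpen_le continuous_id one_pos).measurableSet
  by_cases hε1 : ‖ε‖ ≤ 1
  swap
  · exact absurd (hε ▸ pow_le_one₀ hp.le D.p1.le) hε1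
  have hTT : TT D.q (fun m => vol D {z : Fin 4 → F | (∀ i, ‖z i‖ ≤ 1) ∧
      ‖ε * z 0 ^ 2 + qf h ![z 1, z 2, z 3]‖ ≤ ‖D.p‖ ^ m}) m =
      ∫ s in {s : F | ‖s‖ ≤ 1}, TT D.q (V D h (ε * s ^ 2)) m ∂D.μ := by
    unfold TT
    beta_reduce
    rw [slice_first D hBAL hFUB, slice_first D hBAL hFUB, slice_first D hBAL hFUB]
    have i0 := integrableOn_V D hBAL h ε m
    have i1 := (integrableOn_V D hBAL h ε (m + 1)).const_mul ((D.q : ℝ) ^ 2 - D.q)
    have i2 := (integrableOn_V D hBAL h ε (m + 2)).const_mul ((D.q : ℝ) ^ 3)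
    have i01 : IntegrableOn (fun s => V D h (ε * s ^ 2) m +
        ((D.q : ℝ) ^ 2 - D.q) * V D h (ε * s ^ 2) (m + 1)) {s : F | ‖s‖ ≤ 1} D.μ := i0.add i1
    rw [integral_sub i01 i2, integral_add i0 i1, integral_const_mul, integral_const_mul]
  rw [hTT]
  set S : Set F := {s : F | ‖s‖ ≤ 1 ∧ ‖D.p‖ ^ (l + k) * ‖s‖ ^ 2 ≤ ‖D.p‖ ^ m} with hS
  have hSsub : S ⊆ {s : F | ‖s‖ ≤ 1} := fun s hs => hs.1
  have hnorm : ∀ s : F, ‖D.p‖ ^ l * ‖ε * s ^ 2‖ = ‖D.p‖ ^ (l + k) * ‖s‖ ^ 2 := by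
    intro s
    rw [norm_mul, norm_pow, hε, pow_add]; ring
  have hle1 : ∀ s : F, ‖s‖ ≤ 1 → ‖ε * s ^ 2‖ ≤ 1 := by
    intro s hs
    rw [norm_mul, norm_pow]
    exact mul_le_one₀ hε1 (by positivity) (pow_le_one₀ (norm_nonneg _) hs)
  have hzero : ∀ s ∈ {s : F | ‖s‖ ≤ 1} \ S, TT D.q (V D h (ε * s ^ 2)) m = 0 := by
    rintro s ⟨hs1, hs2⟩
    refine (hC _ m (hle1 s hs1)).1 ?_
    rw [hnorm]
    by_contra hcon
    exact hs2 ⟨hs1, not_lt.1 hcon⟩
  have hrest : ∫ s in {s : F | ‖s‖ ≤ 1}, TT D.q (V D h (ε * s ^ 2)) m ∂D.μ =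
      ∫ s in S, TT D.q (V D h (ε * s ^ 2)) m ∂D.μ :=
    setIntegral_eq_of_subset_of_forall_diff_eq_zero hmO hSsub hzero
  rw [hrest, ← Real.norm_eq_abs]
  have hSfin : D.μ S < ⊤ := lt_of_le_of_lt (measure_mono hSsub) (lt_top_iff_ne_top.2 (finite_O D))
  have hb := norm_setIntegral_le_of_norm_le_const (μ := D.μ) (s := S)
    (f := fun s => TT D.q (V D h (ε * s ^ 2)) m) (C := C * (Real.sqrt D.q ^ (3 * m))⁻¹) hSfin
    (fun s hs => by
      rw [Real.norm_eq_abs]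
      exact (hC _ m (hle1 s hs.1)).2 (by rw [hnorm]; exact hs.2))
  refine hb.trans ?_
  have hms := meas_small D hBAL hNRM (l + k) m
  have hreal : D.μ.real S = (D.μ S).toReal := rfl
  rw [hreal]
  calc C * (Real.sqrt D.q ^ (3 * m))⁻¹ * (D.μ S).toReal
      ≤ C * (Real.sqrt D.q ^ (3 * m))⁻¹ *
        (Real.sqrt D.q ^ (l + k) * (Real.sqrt D.q ^ m)⁻¹) :=
        mul_le_mul_of_nonneg_left hms (by positivity)
    _ = C * Real.sqrt D.q ^ l * Real.sqrt D.q ^ k * ((D.q : ℝ) ^ (2 * m))⁻¹ := by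
        have e : (D.q : ℝ) ^ (2 * m) = Real.sqrt D.q ^ (3 * m) * Real.sqrt D.q ^ m := by
          rw [← pow_add]
          have h4 : 3 * m + m = 2 * (2 * m) := by ring
          rw [h4, pow_mul (Real.sqrt D.q) 2 (2 * m), Real.sq_sqrt hq.le]
        rw [e, mul_inv, pow_add]
        ring

end Pool.Agent.H91.N6D
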