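import Pool.Agent.H28.N6.Targets
import Pool.Agent.H28.N6.Lib

/-!
# Lemmas for the rows MEA, NEA, HPN, ISQ of block D
-/

set_option autoImplicit false
open MeasureTheory Pool.Agent.H28.N6 Filter Topology

namespace Pool.Agent.H91.N6D

section norm

variable {F : Type} [NontriviallyNormedField F] [IsUltrametricDist F]

theorem isOpen_le {X : Type} [TopologicalSpace X] {f : X → F} (hf : Continuous f) {r : ℝ}
    (hr : 0 < r) : IsOpen {x | ‖f x‖ ≤ r} := by
  have h := (IsUltrametricDist.isOpen_closedBall (0 : F) hr.ne').preimage hf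
  convert h using 1
  ext x
  simp

theorem norm_add_le_iff {x y : F} {r : ℝ} (hy : ‖y‖ ≤ r) : ‖x + y‖ ≤ r ↔ ‖x‖ ≤ r := by
  constructor
  · intro h
    have : x = (x + y) + (-y) := by ring
    rw [this]
    exact (IsUltrametricDist.norm_add_le_max _ _).trans (max_le h (by rwa [norm_neg]))
  · intro h
    exact (IsUltrametricDist.norm_add_le_max _ _).trans (max_le h hy)

theorem norm_qf_le {ι : Type} [Fintype ι] (G : Matrix ι ι F) (z : ι → F) {C : ℝ} (hC : 0 ≤ C)
    (hG : ∀ i j, ‖G i j‖ ≤ C) (hz : ∀ i, ‖z i‖ ≤ 1) : ‖qf G z‖ ≤ C := by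
  unfold qf dotProduct Matrix.mulVec dotProduct
  refine IsUltrametricDist.norm_sum_le_of_forall_le_of_nonneg hC fun i _ => ?_
  rw [norm_mul]
  have h1 : ‖∑ j, G i j * z j‖ ≤ C :=
    IsUltrametricDist.norm_sum_le_of_forall_le_of_nonneg hC fun j _ => by
      rw [norm_mul]
      calc ‖G i j‖ * ‖z j‖ ≤ C * 1 := mul_le_mul (hG i j) (hz j) (norm_nonneg _) hC
        _ = C := mul_one C
  calc ‖z i‖ * ‖∑ j, G i j * z j‖ ≤ 1 * C := mul_le_mul (hz i) h1 (norm_nonneg _) zero_le_one
    _ = C := one_mul C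

theorem continuous_qf {ι X : Type} [Fintype ι] [TopologicalSpace X] (G : Matrix ι ι F)
    {f : X → ι → F} (hf : Continuous f) : Continuous fun x => qf G (f x) := by
  unfold qf dotProduct Matrix.mulVec dotProduct
  refine continuous_finsetSum _ fun i _ => ?_
  refine ((continuous_apply i).comp hf).mul (continuous_finsetSum _ fun j _ => ?_)
  exact continuous_const.mul ((continuous_apply j).comp hf)

end norm

variable {F : Type} [NontriviallyNormedField F] [IsUltrametricDist F] [ProperSpace F]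
    [MeasurableSpace F] [BorelSpace F] (D : Dat F)

theorem p_pos : 0 < ‖D.p‖ := norm_pos_iff.2 D.p0

theorem q_pos : (0 : ℝ) < D.q := by
  have := D.hq
  exact_mod_cast (by omega : 0 < D.q)

theorem one_lt_q : (1 : ℝ) < D.q := by
  have := D.hq
  exact_mod_cast (by omega : 1 < D.q)

theorem vol_nonneg {ι : Type} [Fintype ι] (A : Set (ι → F)) : 0 ≤ vol D A :=
  ENNReal.toReal_nonneg

theorem box_bdd (ι : Type) [Fintype ι] : Bornology.IsBounded {z : ι → F | ∀ i, ‖z i‖ ≤ 1} := by
  refine (Metric.isBounded_closedBall (x := (0 : ι → F)) (r := 1)).subset fun z hz => ?_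
  rw [mem_closedBall_zero_iff]
  exact (pi_norm_le_iff_of_nonneg zero_le_one).2 hz

theorem vol_box (hBAL : T_BAL) (ι : Type) [Fintype ι] :
    vol D {z : ι → F | ∀ i, ‖z i‖ ≤ 1} = 1 := by
  have := (hBAL F D ι).1 0
  simpa using this

theorem vol_mono (hBAL : T_BAL) {ι : Type} [Fintype ι] {A B : Set (ι → F)} (h : A ⊆ B)
    (hB : Bornology.IsBounded B) : vol D A ≤ vol D B := (hBAL F D ι).2.2.2.1 A B h hB

theorem V_nonneg {ι : Type} [Fintype ι] (G : Matrix ι ι F) (a : F) (m : ℕ) : 0 ≤ V D G a m :=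
  vol_nonneg D _

theorem V_le_one (hBAL : T_BAL) {ι : Type} [Fintype ι] (G : Matrix ι ι F) (a : F) (m : ℕ) :
    V D G a m ≤ 1 := by
  rw [← vol_box D hBAL ι]
  exact vol_mono D hBAL (fun z hz => hz.1) (box_bdd ι)

/-- The volume is a locally constant function of the value. -/
theorem V_congr_a {ι : Type} [Fintype ι] (G : Matrix ι ι F) {a b : F} {m : ℕ}
    (h : ‖b - a‖ ≤ ‖D.p‖ ^ m) : V D G b m = V D G a m := by
  unfold V
  congr 1
  ext z
  simp only [Set.mem_setOf_eq]
  refine and_congr_right fun _ => ?_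
  have : qf G z + b = (qf G z + a) + (b - a) := by ring
  rw [this, norm_add_le_iff h]

theorem continuous_V_a {ι : Type} [Fintype ι] (G : Matrix ι ι F) (m : ℕ) :
    Continuous fun a : F => V D G a m := by
  rw [continuous_iff_continuousAt]
  intro a
  have hp : 0 < ‖D.p‖ ^ m := pow_pos (p_pos D) m
  refine (tendsto_const_nhds (x := V D G a m)).congr' ?_
  filter_upwards [Metric.closedBall_mem_nhds a hp] with b hb
  exact (V_congr_a D G (by rwa [mem_closedBall_iff_norm] at hb)).symm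

theorem continuous_TT_a {ι : Type} [Fintype ι] (G : Matrix ι ι F) (m : ℕ) :
    Continuous fun a : F => TT D.q (V D G a) m := by
  unfold TT
  exact ((continuous_V_a D G m).add (continuous_const.mul (continuous_V_a D G (m + 1)))).sub
    (continuous_const.mul (continuous_V_a D G (m + 2)))

theorem ball_one (hBAL : T_BAL) (m : ℕ) :
    (D.μ {x : F | ‖x‖ ≤ ‖D.p‖ ^ m}).toReal = ((D.q : ℝ) ^ m)⁻¹ := by
  have h := (hBAL F D (Fin 1)).1 m
  unfold vol at h
  have hs := D.haar
  have e : {z : Fin 1 → F | ∀ i, ‖z i‖ ≤ ‖D.p‖ ^ m} =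
      Set.pi Set.univ fun _ => {x : F | ‖x‖ ≤ ‖D.p‖ ^ m} := by
    ext z; simp
  rw [e, Measure.pi_pi] at h
  simpa using h

end Pool.Agent.H91.N6D
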